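import Mathlib

/-!
# Project IM (MP_140d1b_an): integral means of derivatives under subordination, `0 < p ≤ 2`

Goal: `r_p = 1/2` for all `0 < p ≤ 2` (known: `p = 2`, Goluzin). Notation: circle `w(t) = r e^{it}`.
-/

set_option autoImplicit false

open Complex Metric Set MeasureTheory

namespace Pool.Agent.Q81.IM

/-- The point `r e^{it}`. -/
noncomputable def cp (r t : ℝ) : ℂ := (r : ℂ) * exp ((t : ℂ) * I)

/-- `φ` is an analytic self-map of the unit disc with `φ(0) = 0`. -/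
structure Sw (φ : ℂ → ℂ) : Prop where
  diff : DifferentiableOn ℂ φ (ball 0 1)
  maps : MapsTo φ (ball 0 1) (ball 0 1)
  zero : φ 0 = 0

/-- Taylor coefficient at `0`. -/
noncomputable def coef (f : ℂ → ℂ) (n : ℕ) : ℂ := iteratedDeriv n f 0 / (n.factorial : ℂ)

/-- JOB PO (Littlewood for polynomials, `p = 2`). Induction on the degree: `P = c + X Q`
(`Polynomial.divX_mul_X_add`). With `w = cp r t`: `∫ ‖c + w Q(w)‖² = 2π |c|² + r² ∫ ‖Q(w)‖²`, since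
`∫ w Q(w) dt = 0` (mean value property), and `∫ ‖c + φ Q(φ)‖² = 2π|c|² + ∫ |φ|² ‖Q(φ)‖²
≤ 2π |c|² + r² ∫ ‖Q(φ)‖²` since `φ Q(φ)` vanishes at `0` and `|φ(w)| ≤ r` (Schwarz). -/
def S_PO : Prop := ∀ (P : Polynomial ℂ) (φ : ℂ → ℂ) (r : ℝ), Sw φ → 0 < r → r < 1 →
  ∫ t in (0 : ℝ)..(2 * Real.pi), ‖P.eval (φ (cp r t))‖ ^ 2 ≤
    ∫ t in (0 : ℝ)..(2 * Real.pi), ‖P.eval (cp r t)‖ ^ 2

/-- JOB PA (Parseval). For `h` analytic on the disc and `0 < r < 1`: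
`(1/2π) ∫ ‖h(w)‖² = ∑ |h_n|² r^{2n}`. (Uniform convergence of the Taylor series on `|z| = r`; look
for an existing version in the pool.) -/
def S_PA : Prop := ∀ (h : ℂ → ℂ) (r : ℝ), DifferentiableOn ℂ h (ball 0 1) → 0 < r → r < 1 →
  HasSum (fun n : ℕ => ‖coef h n‖ ^ 2 * r ^ (2 * n))
    ((2 * Real.pi)⁻¹ * ∫ t in (0 : ℝ)..(2 * Real.pi), ‖h (cp r t)‖ ^ 2)

/-- JOB RO (Rogosinski). Let `P` be the Taylor polynomial of degree `N` of `f`. `f - P` vanishes at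
`0` to order `N+1`, so does `(f - P) ∘ φ`, hence `coef (f∘φ) k = coef (P∘φ) k` for `k ≤ N`; by PA and
PO `∑_{k ≤ N} |b_k|² r^{2k} ≤ (1/2π) ∫ ‖P(φ)‖² ≤ (1/2π) ∫ ‖P‖² = ∑_{k ≤ N} |a_k|² r^{2k}`; `r → 1`. -/
def S_RO : Prop := ∀ (f φ : ℂ → ℂ), DifferentiableOn ℂ f (ball 0 1) → Sw φ → ∀ N : ℕ,
  ∑ k ∈ Finset.range (N + 1), ‖coef (fun z => f (φ z)) k‖ ^ 2 ≤
    ∑ k ∈ Finset.range (N + 1), ‖coef f k‖ ^ 2

/-- JOB GO (Goluzin, `p = 2`, `r ≤ 1/2`). By PA for the derivatives (`coef h' k = (k+1) coef h (k+1)`)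
the claim is `∑ k² r^{2k-2} |b_k|² ≤ ∑ k² r^{2k-2} |a_k|²` (`k ≥ 1`); the weights `k² r^{2k-2}` are
decreasing for `r ≤ 1/2` (`(k+1)² r² ≤ k²` as `k + 1 ≤ 2k`), so it follows from RO by summation by
parts (`b_0 = a_0` since `φ(0) = 0`) for all partial sums. -/
def S_GO : Prop := ∀ (f φ : ℂ → ℂ) (r : ℝ), DifferentiableOn ℂ f (ball 0 1) → Sw φ → 0 < r →
  r ≤ 1 / 2 →
  ∫ t in (0 : ℝ)..(2 * Real.pi), ‖deriv (fun z => f (φ z)) (cp r t)‖ ^ 2 ≤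
    ∫ t in (0 : ℝ)..(2 * Real.pi), ‖deriv f (cp r t)‖ ^ 2

/-- JOB AP (local versions). `G` is analytic on `|z| < R`, `R > r`. The Taylor polynomials `P_n` of
`G` converge to `G` uniformly on `|z| ≤ r`, and `|φ(w)| ≤ r` for `|w| = r` (Schwarz). (a): PO for
`P_n`, `n → ∞`. (b): GO for a primitive `f_n` of `P_n` (a polynomial): `(f_n∘φ)' = P_n(φ) φ'`;
`n → ∞`. -/
def S_AP : Prop := ∀ (G φ : ℂ → ℂ) (r R : ℝ), Sw φ → 0 < r → r ≤ 1 / 2 → r < R →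
  DifferentiableOn ℂ G (ball 0 R) →
  (∫ t in (0 : ℝ)..(2 * Real.pi), ‖G (φ (cp r t))‖ ^ 2 ≤
    ∫ t in (0 : ℝ)..(2 * Real.pi), ‖G (cp r t)‖ ^ 2) ∧
  (∫ t in (0 : ℝ)..(2 * Real.pi), ‖G (φ (cp r t)) * deriv φ (cp r t)‖ ^ 2 ≤
    ∫ t in (0 : ℝ)..(2 * Real.pi), ‖G (cp r t)‖ ^ 2)

/-- JOB ZF (zero-free functions). `H` has no zero in `|z| < R`, so `H = exp L`, `L` analytic (a
primitive of `H'/H`, `DifferentiableOn.isExactOn_ball`, or `exists_log_ball` in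
`Pool.Agent.H712R2.Par`). `G = exp((p/2) L)`: `‖G‖² = ‖H‖^p`. Pointwise (Young)
`|φ'|^p ≤ (p/2) |φ'|² + (1 - p/2)`, so
`‖H(φ) φ'‖^p = ‖G(φ)‖² |φ'|^p ≤ (p/2) ‖G(φ) φ'‖² + (1 - p/2) ‖G(φ)‖²`; integrate and use AP (a), (b). -/
def S_ZF : Prop := ∀ (H φ : ℂ → ℂ) (p r R : ℝ), Sw φ → 0 < p → p ≤ 2 → 0 < r → r ≤ 1 / 2 → r < R →
  DifferentiableOn ℂ H (ball 0 R) → (∀ z ∈ ball (0 : ℂ) R, H z ≠ 0) →
  ∫ t in (0 : ℝ)..(2 * Real.pi), ‖H (φ (cp r t)) * deriv φ (cp r t)‖ ^ p ≤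
    ∫ t in (0 : ℝ)..(2 * Real.pi), ‖H (cp r t)‖ ^ p

/-- JOB BL (dividing out the zeros). `F` is analytic on the unit disc without zeros on `|z| = r`
(`r < 1`); then there are `R > r` and `H` analytic and zero-free on `|z| < R` with `|H| = |F|` on
`|z| = r` and `|F| ≤ |H|` on `|z| ≤ r`. Proof: `F` is not identically zero, so it has finitely many
zeros in the compact disc `|z| ≤ r`; induction on the number of zeros with multiplicity (e.g. take a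
counterexample with minimal `∑ order`, or use the finite Blaschke product of the zeros): if
`F(a) = 0`, `|a| < r`, replace `F` by `F₁(z) = F(z) (r² - conj(a) z)/(r (z - a))` (removable
singularity at `a`; analytic on the unit disc); `|r (z - a)| = |r² - conj(a) z|` on `|z| = r` and
`≤` for `|z| ≤ r`, and `F₁` has one zero less in `|z| ≤ r`. Without zeros in `|z| ≤ r` there is
`R > r` (compactness) without zeros in `|z| < R`, `R ≤ 1`: `H = F`. -/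
def S_BL : Prop := ∀ (F : ℂ → ℂ) (r : ℝ), 0 < r → r < 1 → DifferentiableOn ℂ F (ball 0 1) →
  (∀ z : ℂ, ‖z‖ = r → F z ≠ 0) →
  ∃ (R : ℝ) (H : ℂ → ℂ), r < R ∧ DifferentiableOn ℂ H (ball 0 R) ∧
    (∀ z ∈ ball (0 : ℂ) R, H z ≠ 0) ∧ (∀ z : ℂ, ‖z‖ = r → ‖H z‖ = ‖F z‖) ∧
    ∀ z : ℂ, ‖z‖ ≤ r → ‖F z‖ ≤ ‖H z‖

/-- JOB MN (the inequality). `F = f'`. If `F` is identically zero, both sides are `0`. Otherwise, if
`F` has no zero on `|z| = r`: BL and ZF, `‖F(φ) φ'‖ ≤ ‖H(φ) φ'‖` at `w` since `|φ(w)| ≤ r`. For a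
general `r`: the zeros of `F` in `|z| ≤ r` are finitely many, so for all `s < r` close to `r` there
is no zero on `|z| = s`; both integrals are continuous in `s` (`‖·‖^p` is continuous, `p > 0`;
the integrands are jointly continuous on `[r/2, r] × [0, 2π]`); let `s → r`. `(f∘φ)' = f'(φ) φ'`. -/
def S_MN : Prop := ∀ (f φ : ℂ → ℂ) (p r : ℝ), DifferentiableOn ℂ f (ball 0 1) → Sw φ → 0 < p →
  p ≤ 2 → 0 < r → r ≤ 1 / 2 →
  ∫ t in (0 : ℝ)..(2 * Real.pi), ‖deriv (fun z => f (φ z)) (cp r t)‖ ^ p ≤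
    ∫ t in (0 : ℝ)..(2 * Real.pi), ‖deriv f (cp r t)‖ ^ p

end Pool.Agent.Q81.IM
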