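import Pool.Agent.Q81.IM.MainOf

set_option autoImplicit false

open Complex Metric Set MeasureTheory

namespace Pool.Agent.Q81.IM

/-- The test function. -/
noncomputable def ff (a : ℝ) (z : ℂ) : ℂ := z * (z - a) / (1 - a * z)

/-- Its derivative. -/
noncomputable def fd (a : ℝ) (z : ℂ) : ℂ :=
  ((2 * z - a) * (1 - a * z) + a * (z * (z - a))) / (1 - a * z) ^ 2

theorem den_ne {a : ℝ} (h0 : 0 < a) (h1 : a < 1) {z : ℂ} (hz : ‖z‖ < 1) : 1 - (a : ℂ) * z ≠ 0 := by
  intro h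
  have h2 : (a : ℂ) * z = 1 := by linear_combination -h
  have h3 : ‖(a : ℂ) * z‖ = 1 := by rw [h2, norm_one]
  rw [norm_mul, Complex.norm_real, Real.norm_eq_abs, abs_of_pos h0] at h3
  nlinarith only [h3, hz, h1, h0, norm_nonneg z]

theorem ff_deriv {a : ℝ} (h0 : 0 < a) (h1 : a < 1) {z : ℂ} (hz : ‖z‖ < 1) :
    HasDerivAt (ff a) (fd a z) z := by
  have hd := den_ne h0 h1 hz
  have e1 : HasDerivAt (fun z : ℂ => z * (z - a)) (1 * (z - a) + z * 1) z :=
    (hasDerivAt_id z).mul ((hasDerivAt_id z).sub_const (a : ℂ))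
  have e2 : HasDerivAt (fun z : ℂ => 1 - (a : ℂ) * z) (-((a : ℂ) * 1)) z :=
    ((hasDerivAt_id z).const_mul (a : ℂ)).const_sub 1
  have e3 : HasDerivAt (ff a) (((1 * (z - a) + z * 1) * (1 - (a : ℂ) * z) -
      z * (z - a) * (-((a : ℂ) * 1))) / (1 - (a : ℂ) * z) ^ 2) z := e1.div e2 hd
  have e4 : fd a z = ((1 * (z - a) + z * 1) * (1 - (a : ℂ) * z) -
      z * (z - a) * (-((a : ℂ) * 1))) / (1 - (a : ℂ) * z) ^ 2 := by
    unfold fd
    congr 1
    ring
  rw [e4]
  exact e3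

theorem ff_sw {a : ℝ} (h0 : 0 < a) (h1 : a < 1) : Sw (ff a) := by
  refine ⟨fun z hz => (ff_deriv h0 h1 (mem_ball_zero_iff.1 hz)).differentiableAt.differentiableWithinAt,
    fun z hz => ?_, by simp [ff]⟩
  rw [mem_ball_zero_iff] at hz ⊢
  have hd := den_ne h0 h1 hz
  have hdp : 0 < ‖1 - (a : ℂ) * z‖ := norm_pos_iff.2 hd
  have key : ‖z - (a : ℂ)‖ ≤ ‖1 - (a : ℂ) * z‖ := by
    rw [← abs_of_nonneg (norm_nonneg (z - (a : ℂ))), ← abs_of_nonneg (norm_nonneg (1 - (a : ℂ) * z)),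
      ← sq_le_sq, ← Complex.normSq_eq_norm_sq, ← Complex.normSq_eq_norm_sq, Complex.normSq_apply,
      Complex.normSq_apply]
    have hz2 : z.re * z.re + z.im * z.im < 1 := by
      have := Complex.normSq_apply z
      rw [Complex.normSq_eq_norm_sq] at this
      nlinarith only [this, hz, norm_nonneg z]
    simp only [Complex.sub_re, Complex.sub_im, Complex.ofReal_re, Complex.ofReal_im, Complex.one_re,
      Complex.one_im, Complex.mul_re, Complex.mul_im]
    nlinarith only [mul_pos (sub_pos.2 hz2) (by nlinarith only [h0, h1] : (0 : ℝ) < 1 - a ^ 2)]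
  rw [ff, norm_div, norm_mul, div_lt_one hdp]
  calc ‖z‖ * ‖z - (a : ℂ)‖ ≤ ‖z‖ * ‖1 - (a : ℂ) * z‖ := mul_le_mul_of_nonneg_left key (norm_nonneg _)
    _ < 1 * ‖1 - (a : ℂ) * z‖ := mul_lt_mul_of_pos_right hz hdp
    _ = _ := one_mul _

theorem cp_pi (r : ℝ) : cp r Real.pi = -(r : ℂ) := by
  rw [cp, Complex.exp_pi_mul_I]; ring

theorem fd_val {a r : ℝ} (h0 : 0 < a) (hr : 0 < r) :
    ‖fd a (-(r : ℂ))‖ = (2 * r + a + a * r ^ 2) / (1 + a * r) ^ 2 := by
  have e : fd a (-(r : ℂ)) = ((-((2 * r + a + a * r ^ 2) / (1 + a * r) ^ 2) : ℝ) : ℂ) := by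
    have hne : (1 + (a : ℂ) * r) ≠ 0 := by
      have : (0 : ℝ) < 1 + a * r := by positivity
      exact_mod_cast this.ne'
    rw [fd]
    push_cast
    rw [show (1 - (a : ℂ) * -(r : ℂ)) = 1 + a * r by ring]
    field_simp
    ring
  rw [e, Complex.norm_real, Real.norm_eq_abs, abs_neg, abs_of_pos (by positivity)]

theorem large {r : ℝ} (h1 : Real.sqrt 2 - 1 < r) (h2 : r < 1) :
    ∃ P : ℝ, 0 < P ∧ ∀ p : ℝ, P ≤ p → ∀ ρ : ℝ, Good p ρ → ρ ≤ r := by
  have hs : Real.sqrt 2 ^ 2 = 2 := Real.sq_sqrt (by norm_num)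
  have hs1 : 1 < Real.sqrt 2 := by
    rw [Real.lt_sqrt (by norm_num)]; norm_num
  have hr : 0 < r := by linarith
  have hq : 0 < r ^ 2 + 2 * r - 1 := by nlinarith only [hs, h1, hs1, hr]
  obtain ⟨a, ha⟩ : ∃ a : ℝ, a = (1 - r) ^ 2 / (2 * r ^ 2) := ⟨_, rfl⟩
  have ha0 : 0 < a := by
    rw [ha]; have : 0 < 1 - r := by linarith
    positivity
  have har : a * (2 * r ^ 2) = (1 - r) ^ 2 := by rw [ha]; field_simp
  have ha1 : a < 1 := by
    rw [ha, div_lt_one (by positivity)]; nlinarith only [hq]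
  have hV : 1 < (2 * r + a + a * r ^ 2) / (1 + a * r) ^ 2 := by
    rw [one_lt_div (by positivity)]
    have hh : 0 < (1 - a) * (r ^ 2 * a + 2 * r - 1) :=
      mul_pos (by linarith) (by nlinarith only [har, hq])
    nlinarith only [hh]
  obtain ⟨c, hc⟩ : ∃ c : ℝ, c = (1 + (2 * r + a + a * r ^ 2) / (1 + a * r) ^ 2) / 2 := ⟨_, rfl⟩
  have hc1 : 1 < c := by rw [hc]; linarith
  have hcV : c < ‖fd a (cp r Real.pi)‖ := by rw [cp_pi, fd_val ha0 hr, hc]; linarith
  have hcont : Continuous fun t : ℝ => ‖fd a (cp r t)‖ := by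
    have h3 : ∀ t : ℝ, (1 - (a : ℂ) * cp r t) ^ 2 ≠ 0 := fun t =>
      pow_ne_zero 2 (den_ne ha0 ha1 (by rw [norm_cp hr.le]; exact h2))
    have h4 : Continuous fun t : ℝ => cp r t := by unfold cp; fun_prop
    unfold fd
    exact (Continuous.div (by fun_prop) (by fun_prop) h3).norm
  obtain ⟨η, hη, hη2⟩ := Metric.eventually_nhds_iff.1 (hcont.continuousAt.eventually_const_lt hcV)
  obtain ⟨d, hd⟩ : ∃ d : ℝ, d = min (η / 2) 1 := ⟨_, rfl⟩
  have hd0 : 0 < d := by rw [hd]; positivity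
  have hdη : d < η := lt_of_le_of_lt (hd ▸ min_le_left _ _) (by linarith)
  have hd1 : d ≤ 1 := hd ▸ min_le_right _ _
  have hpi := Real.pi_gt_three
  have htop : Filter.Tendsto (fun p : ℝ => c ^ p) Filter.atTop Filter.atTop := by
    have h5 : Filter.Tendsto (fun p : ℝ => Real.exp (Real.log c * p)) Filter.atTop Filter.atTop :=
      Real.tendsto_exp_atTop.comp (Filter.tendsto_id.const_mul_atTop (Real.log_pos hc1))
    refine h5.congr fun p => ?_
    rw [Real.rpow_def_of_pos (by linarith)]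
  obtain ⟨P0, hP0⟩ := Filter.eventually_atTop.1 (htop.eventually_gt_atTop (Real.pi / d))
  refine ⟨max P0 1, by positivity, fun p hp ρ hg => ?_⟩
  have hp0 : 0 < p := lt_of_lt_of_le one_pos ((le_max_right _ _).trans hp)
  have hcp : Real.pi / d < c ^ p := hP0 p ((le_max_left _ _).trans hp)
  by_contra hlt
  push Not at hlt
  have h6 := hg (fun z => z) (ff a) (by fun_prop) (ff_sw ha0 ha1).diff
    ⟨ff a, ff_sw ha0 ha1, fun z _ => rfl⟩ r hr hlt
  rw [M_id hp0] at h6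
  have h7 : ∀ t : ℝ, deriv (ff a) (cp r t) = fd a (cp r t) := fun t =>
    (ff_deriv ha0 ha1 (by rw [norm_cp hr.le]; exact h2)).deriv
  have hcontp : Continuous fun t : ℝ => ‖fd a (cp r t)‖ ^ p :=
    hcont.rpow_const (fun t => Or.inr hp0.le)
  have h8 : 2 * Real.pi < ∫ t in (0 : ℝ)..(2 * Real.pi), ‖fd a (cp r t)‖ ^ p := by
    have h9 : ∫ t in (Real.pi - d)..(Real.pi + d), c ^ p ≤
        ∫ t in (Real.pi - d)..(Real.pi + d), ‖fd a (cp r t)‖ ^ p := by
      apply intervalIntegral.integral_mono_on (by linarith) (by simp)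
        (hcontp.intervalIntegrable _ _)
      intro t ht
      apply Real.rpow_le_rpow (by linarith) _ hp0.le
      apply le_of_lt
      apply hη2
      rw [Real.dist_eq, abs_lt]
      constructor <;> linarith [ht.1, ht.2]
    have h10 : ∫ t in (Real.pi - d)..(Real.pi + d), ‖fd a (cp r t)‖ ^ p ≤
        ∫ t in (0 : ℝ)..(2 * Real.pi), ‖fd a (cp r t)‖ ^ p := by
      apply intervalIntegral.integral_mono_interval (by linarith) (by linarith) (by linarith)
      · exact Filter.Eventually.of_forall fun t => by positivity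
      · exact hcontp.intervalIntegrable _ _
    rw [intervalIntegral.integral_const, smul_eq_mul] at h9
    rw [div_lt_iff₀ hd0] at hcp
    nlinarith only [h9, h10, hcp]
  have h11 : 1 < (2 * Real.pi)⁻¹ * ∫ t in (0 : ℝ)..(2 * Real.pi), ‖deriv (ff a) (cp r t)‖ ^ p := by
    simp only [h7]
    rw [← inv_mul_cancel₀ (by positivity : (2 * Real.pi) ≠ 0)]
    exact mul_lt_mul_of_pos_left h8 (by positivity)
  have h12 : 1 < M p r (deriv (ff a)) := by
    rw [M]
    exact Real.one_lt_rpow h11 (by positivity)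
  linarith

end Pool.Agent.Q81.IM
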