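import Pool.Agent.Q81.IM.Large
import Pool.Agent.Q162.IM.PO
import Pool.Agent.Q176.IM.PA
import Pool.Agent.Q299.IM.RO
import Pool.Agent.Q265.IM.GO
import Pool.Agent.Q110.IM.AP
import Pool.Agent.Q162.IM.ZF
import Pool.Agent.Q110.IM.BL
import Pool.Agent.Q223.IM.MN

/-!
# Project IM: assembly
-/

set_option autoImplicit false

namespace Pool.Agent.Q81.IM

theorem main {p : ℝ} (hp : 0 < p) (hp2 : p ≤ 2) : rp p = 1 / 2 := by
  have hPO : S_PO := Pool.Agent.Q162.IM.po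
  have hPA : S_PA := Pool.Agent.Q176.IM.pa
  have hRO : S_RO := Pool.Agent.Q299.IM.ro hPO hPA
  have hGO : S_GO := Pool.Agent.Q265.IM.go hPA hRO
  have hAP : S_AP := Pool.Agent.Q110.IM.ap hPO hGO
  have hZF : S_ZF := Pool.Agent.Q162.IM.zf hAP
  have hMN : S_MN := Pool.Agent.Q223.IM.mn Pool.Agent.Q110.IM.bl hZF
  exact rp_half hMN hp hp2

end Pool.Agent.Q81.IM
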