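import Pool.Agent.Q81.IM.Stm

/-!
# Project IM: assembly
-/

set_option autoImplicit false

open Complex Metric Set MeasureTheory

namespace Pool.Agent.Q81.IM

/-- The integral mean. -/
noncomputable def M (p r : ℝ) (h : ℂ → ℂ) : ℝ :=
  ((2 * Real.pi)⁻¹ * ∫ t in (0 : ℝ)..(2 * Real.pi), ‖h (cp r t)‖ ^ p) ^ (1 / p)

/-- Subordination `g ≺ f`. -/
def Sub (g f : ℂ → ℂ) : Prop := ∃ φ : ℂ → ℂ, Sw φ ∧ ∀ z ∈ ball (0 : ℂ) 1, g z = f (φ z)

/-- The property of `ρ` in the definition of `r_p`. -/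
def Good (p ρ : ℝ) : Prop := ∀ f g : ℂ → ℂ, DifferentiableOn ℂ f (ball 0 1) →
  DifferentiableOn ℂ g (ball 0 1) → Sub g f → ∀ r : ℝ, 0 < r → r < ρ →
    M p r (deriv g) ≤ M p r (deriv f)

/-- `r_p`. -/
noncomputable def rp (p : ℝ) : ℝ := sSup {ρ : ℝ | 0 < ρ ∧ ρ ≤ 1 ∧ Good p ρ}

theorem norm_cp {r : ℝ} (hr : 0 ≤ r) (t : ℝ) : ‖cp r t‖ = r := by
  rw [cp, norm_mul, Complex.norm_exp_ofReal_mul_I, mul_one, Complex.norm_real, Real.norm_eq_abs,
    abs_of_nonneg hr]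

theorem M_id {p : ℝ} (hp : 0 < p) (r : ℝ) : M p r (deriv fun z : ℂ => z) = 1 := by
  have e : (deriv fun z : ℂ => z) = fun _ => 1 := by funext z; simp
  rw [M, e]
  simp only [norm_one, Real.one_rpow, intervalIntegral.integral_const, sub_zero, smul_eq_mul,
    mul_one]
  rw [inv_mul_cancel₀ (by positivity), Real.one_rpow]

theorem sw_sq : Sw (fun z : ℂ => z ^ 2) := by
  refine ⟨by fun_prop, fun z hz => ?_, by simp⟩
  rw [mem_ball_zero_iff] at hz ⊢
  rw [norm_pow]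
  exact pow_lt_one₀ (norm_nonneg _) hz two_ne_zero

theorem M_sq {p r : ℝ} (hp : 0 < p) (hr : 0 < r) : M p r (deriv fun z : ℂ => z ^ 2) = 2 * r := by
  have e : (deriv fun z : ℂ => z ^ 2) = fun z => 2 * z := by funext z; simp
  rw [M, e]
  have h1 : ∀ t : ℝ, ‖2 * cp r t‖ ^ p = (2 * r) ^ p := by
    intro t
    rw [norm_mul, norm_cp hr.le]
    simp
  simp only [h1, intervalIntegral.integral_const, sub_zero, smul_eq_mul]
  rw [← mul_assoc, inv_mul_cancel₀ (by positivity), one_mul, ← Real.rpow_mul (by positivity),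
    mul_one_div_cancel hp.ne', Real.rpow_one]

theorem good_le {p ρ : ℝ} (hp : 0 < p) (hρ : 0 < ρ) (h1 : ρ ≤ 1) (h : Good p ρ) : ρ ≤ 1 / 2 := by
  by_contra hc
  push Not at hc
  have h2 := h (fun z => z) (fun z => z ^ 2) (by fun_prop) (by fun_prop)
    ⟨fun z => z ^ 2, sw_sq, fun z _ => rfl⟩ ((1 / 2 + ρ) / 2) (by linarith) (by linarith)
  rw [M_id hp, M_sq hp (by linarith)] at h2
  linarith

theorem good_half (hMN : S_MN) {p : ℝ} (hp : 0 < p) (hp2 : p ≤ 2) : Good p (1 / 2) := by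
  intro f g hf hg hs r hr hr2
  obtain ⟨φ, hφ, he⟩ := hs
  have h := hMN f φ p r hf hφ hp hp2 hr hr2.le
  have hd : ∀ t : ℝ, deriv g (cp r t) = deriv (fun z => f (φ z)) (cp r t) := by
    intro t
    apply Filter.EventuallyEq.deriv_eq
    have hm : cp r t ∈ ball (0 : ℂ) 1 := by
      rw [mem_ball_zero_iff, norm_cp hr.le]; linarith
    filter_upwards [isOpen_ball.mem_nhds hm] with z hz using he z hz
  rw [M, M]
  simp only [hd]
  apply Real.rpow_le_rpow _ _ (by positivity)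
  · apply mul_nonneg (by positivity)
    apply intervalIntegral.integral_nonneg (by positivity)
    intro t _
    positivity
  · exact mul_le_mul_of_nonneg_left h (by positivity)

theorem rp_half (hMN : S_MN) {p : ℝ} (hp : 0 < p) (hp2 : p ≤ 2) : rp p = 1 / 2 := by
  apply IsGreatest.csSup_eq
  exact ⟨⟨by norm_num, by norm_num, good_half hMN hp hp2⟩,
    fun ρ hρ => good_le hp hρ.1 hρ.2.1 hρ.2.2⟩

end Pool.Agent.Q81.IM
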